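import Pool.Agent.Helper69.RSW.HalfExp

/-!
Arches: open half-circuits in a half-plane.
-/

set_option autoImplicit false

namespace H47Perc
open Finset
open Pool.Agent.Helper69.RSW (P P_mono P_map P_restrict P_congr Dep Up harris P_nonneg)

/-- two legs and a bridge around `x`: the left leg starts at height `l`, the right leg at height
`k`, the bridge is between the heights `y0 + r` and `y0 + R` -/
def ArchE (x r R y0 l k : ℤ) (ω : Finset (Sym2 (ℤ × ℤ))) : Prop :=
  BT (x - R) (x - r) l (y0 + R) (ω ∩ edgesIn (box (x - R) (x - r) l (y0 + R))) ∧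
  LR (x - R) (x + R) (y0 + r) (y0 + R) (ω ∩ edgesIn (box (x - R) (x + R) (y0 + r) (y0 + R))) ∧
  BT (x + r) (x + R) k (y0 + R) (ω ∩ edgesIn (box (x + r) (x + R) k (y0 + R)))

lemma archE_up (x r R y0 l k : ℤ) : Up (ArchE x r R y0 l k) := by
  rintro ω ω' h ⟨h1, h2, h3⟩
  exact ⟨up_inter (up_BT _ _ _ _) _ _ _ h h1, up_inter (up_LR _ _ _ _) _ _ _ h h2,
    up_inter (up_BT _ _ _ _) _ _ _ h h3⟩

/-- the arch event only depends on the edges near the legs and the bridge -/
lemma archE_inter {x r R y0 l k : ℤ} {ω G : Finset (Sym2 (ℤ × ℤ))}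
    (h1 : edgesIn (box (x - R) (x - r) l (y0 + R)) ⊆ G)
    (h2 : edgesIn (box (x - R) (x + R) (y0 + r) (y0 + R)) ⊆ G)
    (h3 : edgesIn (box (x + r) (x + R) k (y0 + R)) ⊆ G) (h : ArchE x r R y0 l k ω) :
    ArchE x r R y0 l k (ω ∩ G) := by
  unfold ArchE at h ⊢
  rw [inter_assoc, inter_eq_right.2 h1, inter_assoc, inter_eq_right.2 h2, inter_assoc,
    inter_eq_right.2 h3]
  exact h

theorem arch {x r R y0 l k : ℤ} (hr : 0 ≤ r) (hrR : r < R) (hl : l ≤ y0) (hk : k ≤ y0)
    {ω : Finset (Sym2 (ℤ × ℤ))} (h : ArchE x r R y0 l k ω) :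
    ∃ ξ η : ℤ, x - R ≤ ξ ∧ ξ ≤ x - r ∧ x + r ≤ η ∧ η ≤ x + R ∧ Joined ω (ξ, l) (η, k) ∧
      ∀ (T : Finset (ℤ × ℤ)) (u z : ℤ × ℤ), |u.1 - x| ≤ r → u.2 ≤ y0 + r → (∀ w ∈ T, y0 ≤ w.2) →
        u ∈ T → (R ≤ |z.1 - x| ∨ y0 + R ≤ z.2) → Joined (ω ∩ edgesIn T) u z →
          Joined ω (ξ, l) u := by
  classical
  obtain ⟨⟨xa, xb, a1, a2, a3, a4, hL⟩, ⟨ya, yb, b1, b2, b3, b4, hT⟩,
    ⟨xc, xd, c1, c2, c3, c4, hR⟩⟩ := h
  -- the walks
  obtain ⟨pL, hpL⟩ := walk_in (by rw [mem_box]; simp only; omega) (joined_symm hL)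
  obtain ⟨pT, hpT⟩ := walk_in (by rw [mem_box]; simp only; omega) hT
  obtain ⟨pR, hpR⟩ := walk_in (by rw [mem_box]; simp only; omega) (joined_symm hR)
  have hsub : ∀ {S : Finset (ℤ × ℤ)} {u v : ℤ × ℤ}, Joined (ω ∩ edgesIn S) u v → Joined ω u v :=
    fun h => joined_mono inter_subset_left h
  have bL : ∀ w ∈ pL.support, x - R ≤ w.1 ∧ w.1 ≤ x - r ∧ l ≤ w.2 ∧ w.2 ≤ y0 + R := fun w hw => by
    have := (hpL w hw).1; rwa [mem_box] at this
  have bT : ∀ w ∈ pT.support, x - R ≤ w.1 ∧ w.1 ≤ x + R ∧ y0 + r ≤ w.2 ∧ w.2 ≤ y0 + R :=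
    fun w hw => by have := (hpT w hw).1; rwa [mem_box] at this
  have bR : ∀ w ∈ pR.support, x + r ≤ w.1 ∧ w.1 ≤ x + R ∧ k ≤ w.2 ∧ w.2 ≤ y0 + R := fun w hw => by
    have := (hpR w hw).1; rwa [mem_box] at this
  -- everything on the left leg is joined to `(xa, l)`
  have jL : ∀ w ∈ pL.support, Joined ω (xa, l) w := fun w hw =>
    joined_trans (hsub hL) (hsub (hpL w hw).2)
  have jT : ∀ w ∈ pT.support, Joined ω (xa, l) w := by
    obtain ⟨w, hw1, hw2⟩ := crossing_walks pL pT (by simp only; omega)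
      (fun w hw => by have := bT w hw; simp only; omega)
      (fun w hw => by have := bL w hw; simp only; omega)
      (fun w hw => by have := bL w hw; simp only; omega)
    intro w' hw'
    exact joined_trans (jL w hw1) (joined_trans (joined_symm (hsub (hpT w hw2).2))
      (hsub (hpT w' hw').2))
  have jR : ∀ w ∈ pR.support, Joined ω (xa, l) w := by
    obtain ⟨w, hw1, hw2⟩ := crossing_walks pR pT (by simp only; omega)
      (fun w hw => by have := bT w hw; simp only; omega)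
      (fun w hw => by have := bR w hw; simp only; omega)
      (fun w hw => by have := bR w hw; simp only; omega)
    intro w' hw'
    exact joined_trans (jT w hw2) (joined_trans (joined_symm (hsub (hpR w hw1).2))
      (hsub (hpR w' hw').2))
  refine ⟨xa, xc, a1, a2, c1, c2, jR _ pR.end_mem_support, ?_⟩
  intro T u z hu1 hu2 hT0 huT hz hj
  rw [abs_le] at hu1
  -- the exit from the box
  obtain ⟨Q, hQ⟩ : ∃ Q, Q = box (x - R + 1) (x + R - 1) y0 (y0 + R - 1) := ⟨_, rfl⟩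
  have hex : ∃ w : ℤ × ℤ, (w.1 = x - R ∨ w.1 = x + R ∨ w.2 = y0 + R) ∧
      Joined (ω ∩ edgesIn (T ∩ box (x - R) (x + R) y0 (y0 + R))) u w := by
    by_cases huQ : u ∈ Q
    · have hzQ : z ∉ Q := by
        rw [hQ, mem_box]
        intro hcon
        rcases hz with hz | hz
        · rcases (le_abs.1 hz) with h1 | h1 <;> omega
        · omega
      obtain ⟨w, w', w1, w2, w3, w4, w5, w6⟩ := joined_exit inter_subset_right hj
        (T := Q) huQ hzQ
      rw [hQ, mem_box] at w1 w2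
      have h4 := adj_dist w4
      rw [abs_le, abs_le] at h4
      have hw' := hT0 w' w3
      refine ⟨w', by omega, ?_⟩
      refine joined_trans (joined_mono ?_ w6) (joined_edge ?_)
      · intro e he
        induction e using Sym2.ind with
        | _ α β =>
          rw [mem_inter, mem_inter, mem_edgesIn, mem_edgesIn, hQ, mem_box, mem_box] at he
          rw [mem_inter, mem_edgesIn, mem_inter, mem_inter, mem_box, mem_box]
          obtain ⟨⟨e1, e2, e3, e4⟩, e5, e6, e7⟩ := he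
          exact ⟨e1, ⟨e2, by omega⟩, ⟨e3, by omega⟩, e4⟩
      · rw [mem_inter, mem_edgesIn] at w5
        rw [mem_inter, mem_edgesIn, mem_inter, mem_inter, mem_box, mem_box]
        exact ⟨w5.1, ⟨w5.2.1, by omega⟩, ⟨w3, by omega⟩, w4⟩
    · refine ⟨u, ?_, joined_refl _ _⟩
      have := hT0 u huT
      rw [hQ, mem_box] at huQ
      omega
  obtain ⟨w, hw, hj'⟩ := hex
  have huT' := hT0 u huT
  have huI : u ∈ T ∩ box (x - R) (x + R) y0 (y0 + R) := by
    rw [mem_inter, mem_box]; exact ⟨huT, by omega⟩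
  obtain ⟨p, hp⟩ := walk_in huI hj'
  have bp : ∀ v ∈ p.support, x - R ≤ v.1 ∧ v.1 ≤ x + R ∧ y0 ≤ v.2 ∧ v.2 ≤ y0 + R := fun v hv => by
    have := (mem_inter.1 (hp v hv).1).2; rwa [mem_box] at this
  have bw := bp w p.end_mem_support
  have jp : ∀ v ∈ p.support, Joined ω u v := fun v hv => hsub (hp v hv).2
  have fin : ∀ v, v ∈ p.support → Joined ω (xa, l) v → Joined ω (xa, l) u := fun v hv h =>
    joined_trans h (joined_symm (jp v hv))
  have brev : ∀ v ∈ p.reverse.support, v ∈ p.support := fun v hv => by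
    rwa [SimpleGraph.Walk.support_reverse, List.mem_reverse] at hv
  rcases hw with hw | hw | hw
  · obtain ⟨v, hv1, hv2⟩ := crossing_walks pL p.reverse (by simp only; omega)
      (fun v hv => by have := bp v (brev v hv); simp only; omega)
      (fun v hv => by have := bL v hv; omega)
      (fun v hv => by have := bL v hv; omega)
    exact fin v (brev v hv2) (jL v hv1)
  · obtain ⟨v, hv1, hv2⟩ := crossing_walks pR p (by simp only; omega)
      (fun v hv => by have := bp v hv; simp only; omega)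
      (fun v hv => by have := bR v hv; omega)
      (fun v hv => by have := bR v hv; omega)
    exact fin v hv2 (jR v hv1)
  · obtain ⟨v, hv1, hv2⟩ := crossing_walks p.reverse pT (by omega)
      (fun v hv => by have := bT v hv; omega)
      (fun v hv => by have := bp v (brev v hv); simp only; omega)
      (fun v hv => by have := bp v (brev v hv); simp only; omega)
    exact fin v (brev v hv1) (jT v hv2)

/-- the probability of an arch -/
lemma arch_prob {c : ℝ} (hc : 0 < c) (hRSW : ∀ n : ℕ, 1 ≤ n → c ≤ pLR (4 * n) n) {x y0 l k : ℤ}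
    {r : ℕ} (hr : 1 ≤ r) (hl : y0 - r ≤ l) (hl' : l ≤ y0) (hk : y0 - r ≤ k) (hk' : k ≤ y0)
    {S : Finset (ℤ × ℤ)} (hS1 : box (x - 2 * r) (x - r) l (y0 + 2 * r) ⊆ S)
    (hS2 : box (x - 2 * r) (x + 2 * r) (y0 + r) (y0 + 2 * r) ⊆ S)
    (hS3 : box (x + r) (x + 2 * r) k (y0 + 2 * r) ⊆ S) :
    c ^ 3 ≤ perc half S (ArchE x r (2 * r) y0 l k) := by
  have u1 : Up (fun ω => BT (x - 2 * r) (x - r) l (y0 + 2 * r)
    (ω ∩ edgesIn (box (x - 2 * r) (x - r) l (y0 + 2 * r)))) := up_inter (up_BT _ _ _ _) _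
  have u2 : Up (fun ω => LR (x - 2 * r) (x + 2 * r) (y0 + r) (y0 + 2 * r)
    (ω ∩ edgesIn (box (x - 2 * r) (x + 2 * r) (y0 + r) (y0 + 2 * r)))) :=
    up_inter (up_LR _ _ _ _) _
  have u3 : Up (fun ω => BT (x + r) (x + 2 * r) k (y0 + 2 * r)
    (ω ∩ edgesIn (box (x + r) (x + 2 * r) k (y0 + 2 * r)))) := up_inter (up_BT _ _ _ _) _
  have p1 : c ≤ perc half S (fun ω => BT (x - 2 * r) (x - r) l (y0 + 2 * r)
      (ω ∩ edgesIn (box (x - 2 * r) (x - r) l (y0 + 2 * r)))) := by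
    rw [perc_restrict hS1, perc_BT]
    rw [show x - (r:ℤ) - (x - 2 * r) = r by ring]
    exact (hRSW r hr).trans (pLR_anti (by omega) (by omega) _)
  have p2 : c ≤ perc half S (fun ω => LR (x - 2 * r) (x + 2 * r) (y0 + r) (y0 + 2 * r)
      (ω ∩ edgesIn (box (x - 2 * r) (x + 2 * r) (y0 + r) (y0 + 2 * r)))) := by
    rw [perc_restrict hS2, perc_LR]
    rw [show x + 2 * (r:ℤ) - (x - 2 * r) = 4 * r by ring,
      show y0 + 2 * (r:ℤ) - (y0 + r) = r by ring]
    exact hRSW r hr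
  have p3 : c ≤ perc half S (fun ω => BT (x + r) (x + 2 * r) k (y0 + 2 * r)
      (ω ∩ edgesIn (box (x + r) (x + 2 * r) k (y0 + 2 * r)))) := by
    rw [perc_restrict hS3, perc_BT]
    rw [show x + 2 * (r:ℤ) - (x + r) = r by ring]
    exact (hRSW r hr).trans (pLR_anti (by omega) (by omega) _)
  have h1 := perc_harris S u2 u3
  have h2 := perc_harris S u1 (u2.and u3)
  have n3 : 0 ≤ perc half S (fun ω => BT (x + r) (x + 2 * r) k (y0 + 2 * r)
      (ω ∩ edgesIn (box (x + r) (x + 2 * r) k (y0 + 2 * r)))) := perc_half_nonneg _ _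
  have q1 := (mul_le_mul p2 p3 hc.le (hc.le.trans p2)).trans h1
  have q2 := (mul_le_mul p1 q1 (by positivity) (hc.le.trans p1)).trans h2
  calc c ^ 3 = c * (c * c) := by ring
    _ ≤ _ := q2

end H47Perc
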