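import Pool.Agent.Helper47.Expl.Defs
import Pool.Agent.Helper69.RSW.Bridge

/-!
Probabilities of events that depend on finitely many edges.
-/

set_option autoImplicit false

namespace H47Perc.Expl
open MeasureTheory Finset
open Pool.Agent.Helper69.RSW (P)

/-- the open edges in the finite set `F` -/
def opn (F : Finset (Sym2 (ℤ × ℤ))) (ω : Sym2 (ℤ × ℤ) → Bool) : Finset (Sym2 (ℤ × ℤ)) :=
  F.filter (fun e => ω e = true)

lemma mem_opn {F : Finset (Sym2 (ℤ × ℤ))} {ω : Sym2 (ℤ × ℤ) → Bool} {e : Sym2 (ℤ × ℤ)} :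
    e ∈ opn F ω ↔ e ∈ F ∧ ω e = true := by
  unfold opn; rw [mem_filter]

instance : IsProbabilityMeasure bond := by
  unfold bond; infer_instance

lemma measurable_opn (F : Finset (Sym2 (ℤ × ℤ))) (S : Finset (Sym2 (ℤ × ℤ))) :
    MeasurableSet {ω : Sym2 (ℤ × ℤ) → Bool | opn F ω = S} := by
  classical
  by_cases hS : S ⊆ F
  · have : {ω : Sym2 (ℤ × ℤ) → Bool | opn F ω = S} =
        Set.pi (F : Set (Sym2 (ℤ × ℤ))) (fun e => {decide (e ∈ S)}) := by
      ext ω
      simp only [Set.mem_setOf_eq, Set.mem_pi, Set.mem_singleton_iff, mem_coe]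
      constructor
      · rintro rfl e he
        rw [Bool.eq_iff_iff, decide_eq_true_iff, mem_opn]
        tauto
      · intro h
        ext e
        rw [mem_opn]
        constructor
        · rintro ⟨h1, h2⟩
          have := h e h1
          rw [h2] at this
          exact of_decide_eq_true this.symm
        · intro h1
          refine ⟨hS h1, ?_⟩
          rw [h e (hS h1)]
          exact decide_eq_true h1
    rw [this]
    exact MeasurableSet.pi F.countable_toSet (fun e _ => measurableSet_singleton _)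
  · have : {ω : Sym2 (ℤ × ℤ) → Bool | opn F ω = S} = ∅ := by
      ext ω
      simp only [Set.mem_setOf_eq, Set.mem_empty_iff_false, iff_false]
      rintro rfl
      exact hS (filter_subset _ _)
    rw [this]
    exact MeasurableSet.empty

lemma bond_opn (F S : Finset (Sym2 (ℤ × ℤ))) (hS : S ⊆ F) :
    bond {ω | opn F ω = S} = ENNReal.ofReal (1 / 2 ^ #F) := by
  classical
  have h1 : {ω : Sym2 (ℤ × ℤ) → Bool | opn F ω = S} =
      Set.pi (F : Set (Sym2 (ℤ × ℤ))) (fun e => {decide (e ∈ S)}) := by
    ext ω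
    simp only [Set.mem_setOf_eq, Set.mem_pi, Set.mem_singleton_iff, mem_coe]
    constructor
    · rintro rfl e he
      rw [Bool.eq_iff_iff, decide_eq_true_iff, mem_opn]
      tauto
    · intro h
      ext e
      rw [mem_opn]
      constructor
      · rintro ⟨h1, h2⟩
        have := h e h1
        rw [h2] at this
        exact of_decide_eq_true this.symm
      · intro h1
        refine ⟨hS h1, ?_⟩
        rw [h e (hS h1)]
        exact decide_eq_true h1
  rw [h1]
  unfold bond
  rw [Measure.infinitePi_pi _ (fun e _ => measurableSet_singleton _)]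
  have h2 : ∀ b : Bool, (PMF.uniformOfFintype Bool).toMeasure {b} = 1 / 2 := by
    intro b
    rw [PMF.toMeasure_apply_singleton _ _ (measurableSet_singleton _),
      PMF.uniformOfFintype_apply]
    simp
  rw [prod_congr rfl (fun e _ => h2 _), prod_const, ENNReal.ofReal_div_of_pos (by positivity),
    ENNReal.ofReal_one, ENNReal.ofReal_pow (by norm_num)]
  rw [ENNReal.div_eq_inv_mul, ENNReal.div_eq_inv_mul, mul_one, mul_one, ENNReal.inv_pow]
  norm_num

lemma setOf_opn (F : Finset (Sym2 (ℤ × ℤ))) (A : Finset (Sym2 (ℤ × ℤ)) → Prop)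
    [DecidablePred A] :
    {ω : Sym2 (ℤ × ℤ) → Bool | A (opn F ω)} =
      ⋃ S ∈ (F.powerset.filter A), {ω | opn F ω = S} := by
  ext ω
  simp only [Set.mem_setOf_eq, mem_filter, mem_powerset, Set.mem_iUnion, exists_prop]
  constructor
  · intro h
    exact ⟨opn F ω, ⟨filter_subset _ _, h⟩, rfl⟩
  · rintro ⟨S, ⟨_, h⟩, rfl⟩
    exact h

lemma measurable_fin (F : Finset (Sym2 (ℤ × ℤ))) (A : Finset (Sym2 (ℤ × ℤ)) → Prop) :
    MeasurableSet {ω : Sym2 (ℤ × ℤ) → Bool | A (opn F ω)} := by
  classical
  rw [setOf_opn]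
  exact Finset.measurableSet_biUnion _ (fun S _ => measurable_opn F S)

/-- the probability of an event that depends on the edges in `F` only -/
theorem bond_fin (F : Finset (Sym2 (ℤ × ℤ))) (A : Finset (Sym2 (ℤ × ℤ)) → Prop) :
    bond.real {ω | A (opn F ω)} = P F A := by
  classical
  rw [Measure.real, setOf_opn, measure_biUnion_finset _ (fun S _ => measurable_opn F S)]
  · rw [sum_congr rfl (fun S hS => bond_opn F S (mem_powerset.1 (mem_filter.1 hS).1)), sum_const,
      nsmul_eq_mul, ENNReal.toReal_mul, ENNReal.toReal_natCast,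
      ENNReal.toReal_ofReal (by positivity)]
    unfold P
    rw [mul_one_div]
  · intro S _ T _ hST
    rw [Function.onFun, Set.disjoint_left]
    intro ω h1 h2
    exact hST (h1.symm.trans h2)

theorem bond_perc (S : Finset (ℤ × ℤ)) (A : Finset (Sym2 (ℤ × ℤ)) → Prop) :
    bond.real {ω | A (opn (edgesIn S) ω)} = perc half S A := by
  rw [bond_fin, Pool.Agent.Helper69.RSW.perc_half_eq]

lemma bond_mono {A B : Set (Sym2 (ℤ × ℤ) → Bool)} (h : A ⊆ B) : bond.real A ≤ bond.real B :=
  measureReal_mono h

end H47Perc.Expl
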