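import Pool.Agent.Helper47.Expl.Arch
import Pool.Agent.Helper47.Expl.Finite

/-!
The one-point function of the contact set.
-/

set_option autoImplicit false

namespace H47Perc.Expl
open Finset MeasureTheory
open Pool.Agent.Helper69.RSW (Up Dep)

/-! ### from infinite to finite configurations -/

/-- a connection uses finitely many edges -/
lemma reach_finite {E : Set (Sym2 (ℤ × ℤ))} (hE : E ⊆ lattice.edgeSet) {u v : ℤ × ℤ}
    (h : (SimpleGraph.fromEdgeSet E).Reachable u v) :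
    ∃ (T : Finset (ℤ × ℤ)) (ω : Finset (Sym2 (ℤ × ℤ))), ω ⊆ edgesIn T ∧
      (ω : Set (Sym2 (ℤ × ℤ))) ⊆ E ∧ Joined ω u v := by
  classical
  obtain ⟨p⟩ := h
  induction p with
  | nil => exact ⟨∅, ∅, empty_subset _, by simp, joined_refl _ _⟩
  | @cons a b c hab p ih =>
    obtain ⟨T, ω, h1, h2, h3⟩ := ih
    rw [SimpleGraph.fromEdgeSet_adj] at hab
    refine ⟨insert a (insert b T), insert s(a, b) ω, ?_, ?_, ?_⟩
    · intro e he
      rw [mem_insert] at he
      rcases he with rfl | he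
      · rw [mem_edgesIn]
        refine ⟨by simp, by simp, ?_⟩
        exact hE hab.1
      · exact edgesIn_mono ((subset_insert _ _).trans (subset_insert _ _)) (h1 he)
    · rw [coe_insert, Set.insert_subset_iff]
      exact ⟨hab.1, h2⟩
    · exact joined_trans (joined_edge (by simp)) (joined_mono (subset_insert _ _) h3)

lemma reach_of_joined {E : Set (Sym2 (ℤ × ℤ))} {ω : Finset (Sym2 (ℤ × ℤ))} {u v : ℤ × ℤ}
    (h : (ω : Set (Sym2 (ℤ × ℤ))) ⊆ E) (hj : Joined ω u v) :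
    (SimpleGraph.fromEdgeSet E).Reachable u v :=
  hj.mono (SimpleGraph.fromEdgeSet_mono h)

lemma openEdges_lattice (ω : Sym2 (ℤ × ℤ) → Bool) : openEdges ω ⊆ lattice.edgeSet := by
  rintro e (⟨h, _⟩ | ⟨x, _, rfl⟩)
  · exact h
  · rw [SimpleGraph.mem_edgeSet]
    right
    simp

/-- an open edge off the real axis -/
lemma open_of {ω : Sym2 (ℤ × ℤ) → Bool} {u v : ℤ × ℤ} (h : lattice.Adj u v) (hu : 0 ≤ u.2)
    (hv : 0 ≤ v.2) (huv : 0 < u.2 ∨ 0 < v.2) (ho : ω s(u, v) = true) : s(u, v) ∈ openEdges ω := by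
  left
  refine ⟨h, ?_, ?_, ho⟩
  · intro z hz
    rw [Sym2.mem_iff] at hz
    rcases hz with rfl | rfl
    · exact hu
    · exact hv
  · rcases huv with h | h
    · exact ⟨u, Sym2.mem_mk_left _ _, h⟩
    · exact ⟨v, Sym2.mem_mk_right _ _, h⟩

/-- an open edge is off the real axis and `ω e = true`, or on the negative half-axis -/
lemma of_open {ω : Sym2 (ℤ × ℤ) → Bool} {u v : ℤ × ℤ} (h : s(u, v) ∈ openEdges ω) :
    lattice.Adj u v ∧ 0 ≤ u.2 ∧ 0 ≤ v.2 ∧
      (((0 < u.2 ∨ 0 < v.2) ∧ ω s(u, v) = true) ∨ (u.2 = 0 ∧ v.2 = 0 ∧ u.1 ≤ 0 ∧ v.1 ≤ 0)) := by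
  have hadj : lattice.Adj u v := openEdges_lattice ω h
  rcases h with ⟨_, h1, ⟨z, h2, h3⟩, h4⟩ | ⟨x, hx, he⟩
  · refine ⟨hadj, h1 u (Sym2.mem_mk_left _ _), h1 v (Sym2.mem_mk_right _ _), Or.inl ⟨?_, h4⟩⟩
    rw [Sym2.mem_iff] at h2
    rcases h2 with rfl | rfl
    · exact Or.inl h3
    · exact Or.inr h3
  · rw [Sym2.eq_iff] at he
    rcases he with ⟨rfl, rfl⟩ | ⟨rfl, rfl⟩
    · refine ⟨hadj, le_rfl, le_rfl, Or.inr ⟨rfl, rfl, ?_, ?_⟩⟩ <;> simp only <;> omega
    · refine ⟨hadj, le_rfl, le_rfl, Or.inr ⟨rfl, rfl, ?_, ?_⟩⟩ <;> simp only <;> omega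

/-- localization: a vertex `(x,0)` of `C₋` has an arm to distance `k ≤ x` -/
lemma arm_of_cminus {ω : Sym2 (ℤ × ℤ) → Bool} {x k : ℤ} (hk : 0 ≤ k) (hkx : k ≤ x)
    (h : (x, 0) ∈ Cminus ω) :
    Arm (box (x - k) (x + k) 0 k) (x, 0) k (opn (edgesIn (box (x - k) (x + k) 0 k)) ω) := by
  obtain ⟨ξ, hξ, h⟩ := h
  obtain ⟨T, ω0, h1, h2, h3⟩ := reach_finite (openEdges_lattice ω) h.symm
  have h3' : Joined (ω0 ∩ edgesIn T) (x, 0) (ξ, 0) := by rwa [inter_eq_left.2 h1]
  obtain ⟨z, hz, hj⟩ := arm_of_joined hk h3' (Or.inl (by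
    simp only; rw [le_abs]; omega))
  refine ⟨z, hz, joined_mono ?_ hj⟩
  intro e he
  induction e using Sym2.ind with
  | _ u v =>
    rw [mem_inter, mem_edgesIn, mem_inter, mem_inter, mem_ball, mem_ball, abs_le, abs_le,
      abs_le, abs_le] at he
    obtain ⟨e1, ⟨_, e2⟩, ⟨_, e3⟩, e4⟩ := he
    obtain ⟨_, k1, k2, k3⟩ := of_open (h2 (mem_coe.2 e1))
    simp only at e2 e3
    have hadj := adj_dist e4
    rw [abs_le, abs_le] at hadj
    have huv : ¬ (u.2 = 0 ∧ v.2 = 0 ∧ u.1 ≤ 0 ∧ v.1 ≤ 0) := by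
      rintro ⟨f1, f2, f3, f4⟩
      have e5 : u = v := by ext <;> omega
      exact e4.ne e5
    rcases k3 with ⟨_, k3⟩ | k3
    · rw [mem_inter, mem_opn, mem_edgesIn, mem_edgesIn, mem_inter, mem_inter, mem_box, mem_box,
        mem_ball, mem_ball, abs_le, abs_le, abs_le, abs_le]
      simp only
      refine ⟨⟨⟨?_, ?_, e4⟩, k3⟩, ⟨⟨?_, ?_⟩, ⟨?_, ?_⟩, e4⟩⟩ <;> omega
    · exact absurd k3 huv

/-- upper bound for the one-point function -/
theorem contact_upper {x k : ℕ} (hkx : k ≤ x) :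
    bond.real {ω | ((x:ℤ), (0:ℤ)) ∈ Cminus ω} ≤ piH 0 (-1) k := by
  calc bond.real {ω | ((x:ℤ), (0:ℤ)) ∈ Cminus ω}
      ≤ bond.real {ω | Arm (box ((x:ℤ) - k) (x + k) 0 k) ((x:ℤ), 0) k
          (opn (edgesIn (box ((x:ℤ) - k) (x + k) 0 k)) ω)} :=
        bond_mono (fun ω h => arm_of_cminus (by omega) (by omega) h)
    _ = armP (box ((x:ℤ) - k) (x + k) 0 k) ((x:ℤ), 0) k := by rw [bond_perc]; rfl
    _ ≤ piH 0 (-1) k := armP_le_piH (fun w hw => by
        rw [mem_box] at hw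
        have : (0:ℝ) ≤ w.2 := by exact_mod_cast hw.2.2.1
        push_cast
        linarith)

/-- lower bound for the one-point function -/
theorem contact_lower {c : ℝ} (hc : 0 < c) (hRSW : ∀ n : ℕ, 1 ≤ n → c ≤ pLR (4 * n) n) {x : ℕ}
    (hx : 1 ≤ x) :
    c ^ 3 / 2 * piH 0 (-1) (2 * x) ≤ bond.real {ω | ((x:ℤ), (0:ℤ)) ∈ Cminus ω} := by
  classical
  -- the domain
  obtain ⟨S, hS⟩ : ∃ S, S = box (-(x:ℤ)) (3 * x) 0 (1 + 2 * x) := ⟨_, rfl⟩
  obtain ⟨S1, hS1⟩ : ∃ S1, S1 = box (-(x:ℤ)) (3 * x) 1 (1 + 2 * x) := ⟨_, rfl⟩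
  obtain ⟨BL, hBL⟩ : ∃ BL, BL = box (-(x:ℤ)) 0 0 (1 + 2 * x) := ⟨_, rfl⟩
  have hS1S : S1 ⊆ S := by
    rw [hS1, hS]; exact box_mono (by omega) (by omega) (by omega) (by omega)
  have hBLS : BL ⊆ S := by
    rw [hBL, hS]; exact box_mono (by omega) (by omega) (by omega) (by omega)
  set E0 : Finset (Sym2 (ℤ × ℤ)) → Prop := fun ω => s((((x:ℤ), 0) : ℤ × ℤ), ((x:ℤ), 1)) ∈ ω with hE0
  have hedge : s((((x:ℤ), 0) : ℤ × ℤ), ((x:ℤ), 1)) ∈ edgesIn S := by
    rw [mem_edgesIn, hS, mem_box, mem_box]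
    simp only
    refine ⟨by omega, by omega, Or.inl (by simp)⟩
  have p0 : perc half S E0 = 1 / 2 := perc_mem_edge hedge
  have u0 : Up E0 := fun ω ω' h h1 => h h1
  have u1 := arm_up S1 ((x:ℤ), 1) (2 * x : ℕ)
  have p1 : piH 0 (-1) (2 * x) ≤ perc half S (Arm S1 ((x:ℤ), 1) (2 * x : ℕ)) := by
    rw [perc_arm _ _ (inter_subset_left.trans hS1S)]
    apply piH_le_armP
    intro w h1 h2 h3
    have h4 : 1 ≤ w.2 := by
      have h5 : ((1:ℤ):ℝ) ≤ w.2 := by simp only at h3; push_cast at h3 ⊢; linarith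
      exact_mod_cast h5
    rw [abs_le] at h1 h2
    rw [hS1, mem_box]
    simp only at h1 h2
    push_cast at h1 h2
    omega
  have p2 : c ^ 3 ≤ perc half S (ArchE x x (2 * x) 1 0 1) := by
    apply arch_prob hc hRSW hx
    · omega
    · omega
    · omega
    · omega
    · rw [hS]; exact box_mono (by omega) (by omega) (by omega) (by omega)
    · rw [hS]; exact box_mono (by omega) (by omega) (by omega) (by omega)
    · rw [hS]; exact box_mono (by omega) (by omega) (by omega) (by omega)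
  have u2 := archE_up (x:ℤ) x (2 * x) 1 0 1
  -- the deterministic part
  have hdet : ∀ ω : Sym2 (ℤ × ℤ) → Bool, (E0 (opn (edgesIn S) ω) ∧
      Arm S1 ((x:ℤ), 1) (2 * x : ℕ) (opn (edgesIn S) ω)) ∧
      ArchE x x (2 * x) 1 0 1 (opn (edgesIn S) ω) → ((x:ℤ), (0:ℤ)) ∈ Cminus ω := by
    rintro ω ⟨⟨h0, ⟨z, hz, hj⟩⟩, hA⟩
    obtain ⟨G, hG⟩ : ∃ G, G = insert s((((x:ℤ), 0) : ℤ × ℤ), ((x:ℤ), 1))
      (edgesIn S1 ∪ edgesIn BL) := ⟨_, rfl⟩
    have hGsub1 : edgesIn S1 ⊆ G := by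
      rw [hG]; exact subset_union_left.trans (subset_insert _ _)
    have hGsub2 : edgesIn BL ⊆ G := by
      rw [hG]; exact subset_union_right.trans (subset_insert _ _)
    have hA' := archE_inter (G := G)
      (by rw [show (x:ℤ) - 2 * x = -x by ring, show (x:ℤ) - x = 0 by ring, ← hBL]; exact hGsub2)
      (by
        refine (edgesIn_mono ?_).trans hGsub1
        rw [hS1]; exact box_mono (by omega) (by omega) (by omega) (by omega))
      (by
        refine (edgesIn_mono ?_).trans hGsub1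
        rw [hS1]; exact box_mono (by omega) (by omega) (by omega) (by omega)) hA
    obtain ⟨ξ, η, i1, i2, i3, i4, i5, i6⟩ := arch (by omega) (by omega) (by omega) (by omega) hA'
    have hz' : (2 * (x:ℤ) ≤ |z.1 - x| ∨ 1 + 2 * (x:ℤ) ≤ z.2) := by
      rcases hz with hz | hz
      · left; simp only at hz; rw [hz]; push_cast; omega
      · right
        have hzS := mem_of_joined inter_subset_right hj (by
          rw [mem_inter, hS1, mem_box, mem_ball]
          simp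
          omega)
        rw [mem_inter, hS1, mem_box] at hzS
        simp only at hz
        push_cast at hz
        rcases (abs_eq (by omega)).1 hz with h | h <;> omega
    have hj2 := i6 S1 ((x:ℤ), 1) z (by simp) (by simp only; omega)
      (fun w hw => by rw [hS1, mem_box] at hw; omega)
      (by rw [hS1, mem_box]; simp only; omega) hz' (joined_mono (by
        intro e he
        rw [mem_inter] at he ⊢
        have he2 := edgesIn_mono inter_subset_left he.2
        exact ⟨mem_inter.2 ⟨he.1, hGsub1 he2⟩, he2⟩) hj)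
    have hj3 : Joined (opn (edgesIn S) ω ∩ G) (ξ, 0) ((x:ℤ), 0) := by
      refine joined_trans hj2 (joined_symm (joined_edge ?_))
      rw [mem_inter, hG]
      exact ⟨h0, mem_insert_self _ _⟩
    refine ⟨ξ, by omega, reach_of_joined ?_ hj3⟩
    intro e he
    rw [mem_coe, mem_inter] at he
    obtain ⟨he1, he2⟩ := he
    rw [mem_opn] at he1
    induction e using Sym2.ind with
    | _ u v =>
      rw [hG, mem_insert, mem_union, mem_edgesIn, mem_edgesIn, hS1, hBL, mem_box, mem_box,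
        mem_box, mem_box] at he2
      rcases he2 with he2 | ⟨e1, e2, e3⟩ | ⟨e1, e2, e3⟩
      · rw [he2] at he1 ⊢
        exact open_of (mem_edgesIn.1 he1.1).2.2 le_rfl zero_le_one (Or.inr (by simp)) he1.2
      · exact open_of e3 (by omega) (by omega) (by omega) he1.2
      · by_cases h0 : 0 < u.2 ∨ 0 < v.2
        · exact open_of e3 (by omega) (by omega) h0 he1.2
        · right
          push Not at h0
          obtain ⟨u1, u2⟩ := u
          obtain ⟨v1, v2⟩ := v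
          simp only at e1 e2 h0
          have hu : u2 = 0 := by omega
          have hv : v2 = 0 := by omega
          subst hu hv
          rcases e3 with ⟨_, e3⟩ | ⟨_, e3⟩
          · simp at e3
          · simp only at e3
            rcases (abs_eq (by norm_num)).1 e3 with h | h
            · exact ⟨v1, by omega, by rw [show u1 = v1 + 1 by omega, Sym2.eq_swap]⟩
            · exact ⟨u1, by omega, by rw [show v1 = u1 + 1 by omega]⟩
  -- the probability
  have q1 := perc_harris S u0 u1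
  have q2 := perc_harris S (u0.and u1) u2
  have n2 : 0 ≤ perc half S (ArchE x x (2 * x) 1 0 1) := perc_half_nonneg _ _
  calc c ^ 3 / 2 * piH 0 (-1) (2 * x) = (1 / 2 * piH 0 (-1) (2 * x)) * c ^ 3 := by ring
    _ ≤ (perc half S E0 * perc half S (Arm S1 ((x:ℤ), 1) (2 * x : ℕ))) *
          perc half S (ArchE x x (2 * x) 1 0 1) := by
        apply mul_le_mul _ p2 (by positivity)
        · exact mul_nonneg (perc_half_nonneg _ _) (perc_half_nonneg _ _)
        · rw [p0]; exact mul_le_mul_of_nonneg_left p1 (by norm_num)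
    _ ≤ perc half S (fun ω => E0 ω ∧ Arm S1 ((x:ℤ), 1) (2 * x : ℕ) ω) *
          perc half S (ArchE x x (2 * x) 1 0 1) := mul_le_mul_of_nonneg_right q1 n2
    _ ≤ perc half S (fun ω => (E0 ω ∧ Arm S1 ((x:ℤ), 1) (2 * x : ℕ) ω) ∧
          ArchE x x (2 * x) 1 0 1 ω) := q2
    _ = bond.real {ω | (E0 (opn (edgesIn S) ω) ∧
          Arm S1 ((x:ℤ), 1) (2 * x : ℕ) (opn (edgesIn S) ω)) ∧
          ArchE x x (2 * x) 1 0 1 (opn (edgesIn S) ω)} := by
        rw [← bond_perc S (fun ω => (E0 ω ∧ Arm S1 ((x:ℤ), 1) (2 * x : ℕ) ω) ∧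
          ArchE x x (2 * x) 1 0 1 ω)]
    _ ≤ _ := bond_mono hdet

end H47Perc.Expl
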