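import Pool.Agent.Helper47.Perc.Defs

/-!
The exploration path of critical bond percolation in the half-plane: the definitions used in the
statements.
-/

namespace H47Perc.Expl
open MeasureTheory

/-- Critical bond percolation: all edges `e` are open (`ω e = true`) with probability `1/2`,
independently of each other. -/
noncomputable def bond : Measure (Sym2 (ℤ × ℤ) → Bool) :=
  Measure.infinitePi (fun _ => (PMF.uniformOfFintype Bool).toMeasure)

/-- The open edges of the half-plane `ℤ × ℕ`: the edges that do not lie on the real axis are open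
iff `ω e = true`; on the real axis the edges `[x, x+1]` with `x < 0` are open and those with
`x ≥ 0` are closed. -/
def openEdges (ω : Sym2 (ℤ × ℤ) → Bool) : Set (Sym2 (ℤ × ℤ)) :=
  {e | e ∈ lattice.edgeSet ∧ (∀ z ∈ e, 0 ≤ z.2) ∧ (∃ z ∈ e, 0 < z.2) ∧ ω e = true} ∪
    {e | ∃ x : ℤ, x < 0 ∧ e = s((x, 0), (x + 1, 0))}

/-- `C₋`: the union of the negative half-axis and all open clusters attached to it. -/
def Cminus (ω : Sym2 (ℤ × ℤ) → Bool) : Set (ℤ × ℤ) :=
  {z | ∃ x : ℤ, x ≤ 0 ∧ (SimpleGraph.fromEdgeSet (openEdges ω)).Reachable (x, 0) z}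

/-- The positions `x > 0` at which the boundary of `C₋`, hence the exploration path, touches the
positive half-axis. -/
def contacts (ω : Sym2 (ℤ × ℤ) → Bool) : Set ℤ := {x | 0 < x ∧ (x, 0) ∈ Cminus ω}

end H47Perc.Expl
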