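import Pool.Agent.Helper47.Expl.HalfDual
import Pool.Agent.Helper47.Expl.Contact
import Pool.Agent.Helper57.Perc.AnnQ

/-!
The dual configuration.
-/

set_option autoImplicit false

namespace H47Perc.Expl
open Finset MeasureTheory
open Pool.Agent.Helper69.RSW (Up Dep P)

/-- the edge crossed by the dual edge between two adjacent faces -/
noncomputable def dE : Sym2 (ℤ × ℤ) → Sym2 (ℤ × ℤ) :=
  Sym2.lift ⟨fun f g => if f.1 = g.1 then s((f.1, max f.2 g.2), (f.1 + 1, max f.2 g.2)) else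
    if f.2 = g.2 then s((max f.1 g.1, f.2), (max f.1 g.1, f.2 + 1)) else s(f, g), by
    intro f g
    by_cases h1 : f.1 = g.1
    · simp only [h1, if_true, max_comm]
    · by_cases h2 : f.2 = g.2
      · simp only [if_neg h1, if_neg (Ne.symm h1), h2, if_true, max_comm]
      · simp only [if_neg h1, if_neg (Ne.symm h1), if_neg h2, if_neg (Ne.symm h2), Sym2.eq_swap]⟩

lemma dE_cross {f g : ℤ × ℤ} (h : lattice.Adj f g) : dE s(f, g) = crossEdge f g := by
  unfold dE
  rw [Sym2.lift_mk]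
  rcases cross_cases h with ⟨h1, h2, h3⟩ | ⟨h1, h2, h3⟩
  · rw [h3]
    simp only
    rw [if_neg (by omega), if_pos h1]
  · rw [h3]
    simp only
    rw [if_pos h1]

lemma dE_hE (i j : ℤ) : dE (hE i j) = vE (i + 1) j := by
  unfold hE vE
  rw [dE_cross (Or.inr (by simp))]
  unfold crossEdge
  simp

lemma dE_vE (i j : ℤ) : dE (vE i j) = hE i (j + 1) := by
  unfold hE vE
  rw [dE_cross (Or.inl (by simp))]
  unfold crossEdge
  simp

lemma hE_inj' {i j i' j' : ℤ} (h : hE i j = hE i' j') : i = i' ∧ j = j' :=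
  (hor_eq_iff _ _ _ _).1 h

lemma vE_inj' {i j i' j' : ℤ} (h : vE i j = vE i' j') : i = i' ∧ j = j' :=
  (vert_eq_iff _ _ _ _).1 h

lemma hE_ne_vE (i j i' j' : ℤ) : hE i j ≠ vE i' j' := hor_ne_vert _ _ _ _

lemma dE_inj (S : Finset (ℤ × ℤ)) : Set.InjOn dE (edgesIn S) := by
  intro e he e' he' h
  rcases edgesIn_cases (mem_coe.1 he) with ⟨i, j, rfl⟩ | ⟨i, j, rfl⟩ <;>
  rcases edgesIn_cases (mem_coe.1 he') with ⟨i', j', rfl⟩ | ⟨i', j', rfl⟩
  · rw [dE_hE, dE_hE] at h
    obtain ⟨h1, h2⟩ := vE_inj' h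
    rw [show i = i' by omega, h2]
  · rw [dE_hE, dE_vE] at h
    exact absurd h.symm (hE_ne_vE _ _ _ _)
  · rw [dE_hE, dE_vE] at h
    exact absurd h (hE_ne_vE _ _ _ _)
  · rw [dE_vE, dE_vE] at h
    obtain ⟨h1, h2⟩ := hE_inj' h
    rw [h1, show j = j' by omega]

/-- the dual edges in `F` that are open, i.e. that cross a closed edge -/
noncomputable def dopn (F : Finset (Sym2 (ℤ × ℤ))) (ω : Sym2 (ℤ × ℤ) → Bool) :
    Finset (Sym2 (ℤ × ℤ)) := F.filter (fun e => ω (dE e) = false)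

lemma mem_dopn {F : Finset (Sym2 (ℤ × ℤ))} {ω : Sym2 (ℤ × ℤ) → Bool} {e : Sym2 (ℤ × ℤ)} :
    e ∈ dopn F ω ↔ e ∈ F ∧ ω (dE e) = false := by
  unfold dopn; rw [mem_filter]

/-- the dual configuration has the law of the configuration -/
theorem bond_dual (F : Finset (Sym2 (ℤ × ℤ))) (hF : Set.InjOn dE F)
    (A : Finset (Sym2 (ℤ × ℤ)) → Prop) : bond.real {ω | A (dopn F ω)} = P F A := by
  classical
  have h1 : {ω : Sym2 (ℤ × ℤ) → Bool | A (dopn F ω)} =
      {ω | (fun T => A (F.filter (fun e => dE e ∉ T))) (opn (F.image dE) ω)} := by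
    ext ω
    rw [Set.mem_setOf_eq, Set.mem_setOf_eq]
    have : dopn F ω = F.filter (fun e => dE e ∉ opn (F.image dE) ω) := by
      ext e
      rw [mem_dopn, mem_filter, mem_opn, mem_image]
      constructor
      · rintro ⟨h1, h2⟩
        exact ⟨h1, fun h => by rw [h2] at h; exact absurd h.2 (by simp)⟩
      · rintro ⟨h1, h2⟩
        refine ⟨h1, ?_⟩
        by_contra h3
        exact h2 ⟨⟨e, h1, rfl⟩, by simpa using h3⟩
    rw [this]
  rw [h1, bond_fin (F.image dE) (fun T => A (F.filter (fun e => dE e ∉ T)))]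
  unfold P
  rw [card_image_of_injOn hF]
  congr 2
  apply card_nbij' (fun T => F.filter (fun e => dE e ∉ T)) (fun S => (F \ S).image dE)
  · intro T hT
    rw [mem_coe, mem_filter, mem_powerset] at hT ⊢
    exact ⟨filter_subset _ _, hT.2⟩
  · intro S hS
    rw [mem_coe, mem_filter, mem_powerset] at hS ⊢
    refine ⟨image_subset_image sdiff_subset, ?_⟩
    have : F.filter (fun e => dE e ∉ (F \ S).image dE) = S := by
      ext e
      rw [mem_filter, mem_image]
      constructor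
      · rintro ⟨h1, h2⟩
        by_contra h3
        exact h2 ⟨e, mem_sdiff.2 ⟨h1, h3⟩, rfl⟩
      · intro h1
        refine ⟨hS.1 h1, ?_⟩
        rintro ⟨e', h2, h3⟩
        rw [mem_sdiff] at h2
        have := hF (mem_coe.2 h2.1) (mem_coe.2 (hS.1 h1)) h3
        rw [this] at h2
        exact h2.2 h1
    rw [this]
    exact hS.2
  · intro T hT
    rw [mem_coe, mem_filter, mem_powerset] at hT
    ext e
    rw [mem_image]
    constructor
    · rintro ⟨e', h2, rfl⟩
      rw [mem_sdiff, mem_filter] at h2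
      by_contra h3
      exact h2.2 ⟨h2.1, h3⟩
    · intro h
      obtain ⟨e', h2, rfl⟩ := mem_image.1 (hT.1 h)
      exact ⟨e', by rw [mem_sdiff, mem_filter]; exact ⟨h2, fun h3 => h3.2 h⟩, rfl⟩
  · intro S hS
    rw [mem_coe, mem_filter, mem_powerset] at hS
    ext e
    rw [mem_filter, mem_image]
    constructor
    · rintro ⟨h1, h2⟩
      by_contra h3
      exact h2 ⟨e, mem_sdiff.2 ⟨h1, h3⟩, rfl⟩
    · intro h1
      refine ⟨hS.1 h1, ?_⟩
      rintro ⟨e', h2, h3⟩
      rw [mem_sdiff] at h2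
      have := hF (mem_coe.2 h2.1) (mem_coe.2 (hS.1 h1)) h3
      rw [this] at h2
      exact h2.2 h1

theorem bond_dual_perc (S : Finset (ℤ × ℤ)) (A : Finset (Sym2 (ℤ × ℤ)) → Prop) :
    bond.real {ω | A (dopn (edgesIn S) ω)} = perc half S A := by
  rw [bond_dual _ (dE_inj S), Pool.Agent.Helper69.RSW.perc_half_eq]

/-- a dual connection between `(i₀,0)` and `(i₁,0)` separates the points in between from the
negative half-axis -/
theorem not_cminus {ω : Sym2 (ℤ × ℤ) → Bool} {S : Finset (ℤ × ℤ)} (hS : ∀ w ∈ S, 0 ≤ w.2)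
    {i0 i1 k : ℤ} (h0 : 0 ≤ i0) (h1 : i0 < k) (h2 : k ≤ i1)
    (hj : Joined (dopn (edgesIn S) ω) (i0, 0) (i1, 0)) : (k, 0) ∉ Cminus ω := by
  classical
  rintro ⟨ξ, hξ, hr⟩
  obtain ⟨T, ω0, t1, t2, t3⟩ := reach_finite (openEdges_lattice ω) hr
  have hne : ((ξ, 0) : ℤ × ℤ) ≠ (k, 0) := by
    intro h
    have := congrArg Prod.fst h
    simp only at this
    omega
  obtain ⟨p, hp1, hp2⟩ := joined_walk_in t1 (mem_of_joined_ne t1 t3 hne) t3
  have hne' : ((i0, 0) : ℤ × ℤ) ≠ (i1, 0) := by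
    intro h
    have := congrArg Prod.fst h
    simp only at this
    omega
  have hsub : dopn (edgesIn S) ω ⊆ edgesIn S := filter_subset _ _
  obtain ⟨q, hq1, hq2⟩ := joined_walk_in hsub (mem_of_joined_ne hsub hj hne') hj
  have hopen : ∀ e ∈ p.edges, e ∈ openEdges ω := fun e he => t2 (mem_coe.2 (hp1 e he))
  have hax : ∀ i : ℤ, 0 ≤ i → s(((i, 0) : ℤ × ℤ), (i + 1, 0)) ∉ p.edges := by
    intro i hi he
    have := of_open (hopen _ he)
    simp only at this
    omega
  have hpos : ∀ w ∈ p.support, 0 ≤ w.2 := by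
    have hmem : ∀ {x y : ℤ × ℤ} (W : lattice.Walk x y), (∀ e ∈ W.edges, e ∈ openEdges ω) →
        0 ≤ x.2 → ∀ w ∈ W.support, 0 ≤ w.2 := by
      intro x y W
      induction W with
      | nil =>
        intro _ hx w hw
        rw [SimpleGraph.Walk.support_nil, List.mem_singleton] at hw
        rwa [hw]
      | @cons a b c hab W ih =>
        intro hW ha w hw
        rw [SimpleGraph.Walk.support_cons, List.mem_cons] at hw
        rcases hw with rfl | hw
        · exact ha
        · have hb := (of_open (hW s(a, b) (by simp))).2.2.1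
          exact ih (fun e he => hW e (by simp [he])) hb w hw
    exact hmem p hopen le_rfl
  obtain ⟨d, hd1, hd2⟩ := block (a := ξ) (b := k) (i0 := i0) (i1 := i1) (by omega) h1 h2 p hpos
    (hax i0 h0) (hax i1 (by omega)) q (fun w hw => hS w (hq2 w hw))
  have hd3 := hopen _ hd2
  have hd4 : s(d.fst, d.snd) ∈ q.edges := by
    rw [SimpleGraph.Walk.edges, List.mem_map]
    exact ⟨d, hd1, rfl⟩
  have hd5 := mem_dopn.1 (hq1 _ hd4)
  rw [dE_cross d.adj] at hd5
  have f1 := hS _ (hq2 _ (q.dart_fst_mem_support_of_mem_darts hd1))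
  have f2 := hS _ (hq2 _ (q.dart_snd_mem_support_of_mem_darts hd1))
  rcases cross_cases d.adj with ⟨c1, c2, c3⟩ | ⟨c1, c2, c3⟩
  · rw [c3] at hd3 hd5
    have := (of_open hd3).2.2.2
    rw [hd5.2] at this
    simp only [Bool.false_eq_true, and_false, false_or] at this
    omega
  · rw [c3] at hd3 hd5
    have := (of_open hd3).2.2.2
    rw [hd5.2] at this
    simp only [Bool.false_eq_true, and_false, false_or] at this
    omega

end H47Perc.Expl
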