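import Pool.Agent.Helper47.Perc.Glue

/-!
Duality in the half-plane: the mod 2 lemma and the blocking lemma.
-/

set_option autoImplicit false

namespace H47Perc
open Finset SimpleGraph

/-! ### the mod 2 lemma -/

lemma shift_sum (N : ℤ) (f : ℤ → ZMod 2) (h0 : f (-N - 1) = 0) (h1 : f N = 0) (hN : 0 ≤ N) :
    ∑ i ∈ Icc (-N) N, f (i - 1) = ∑ i ∈ Icc (-N) N, f i := by
  have e1 : ∑ i ∈ Icc (-N) N, f (i - 1) = ∑ i ∈ Icc (-N - 1) (N - 1), f i := by
    apply sum_bij (fun i _ => i - 1)
    · intro i hi; rw [mem_Icc] at hi ⊢; omega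
    · intro i _ j _ h; omega
    · intro i hi; rw [mem_Icc] at hi
      exact ⟨i + 1, by rw [mem_Icc]; omega, by omega⟩
    · intro i _; rfl
  have e2 : ∑ i ∈ Icc (-N - 1) N, f i = ∑ i ∈ Icc (-N - 1) (N - 1), f i := by
    symm
    apply sum_subset
    · intro i hi; rw [mem_Icc] at hi ⊢; omega
    · intro i hi hi'; rw [mem_Icc] at hi hi'
      rw [show i = N by omega]; exact h1
  have e3 : ∑ i ∈ Icc (-N - 1) N, f i = ∑ i ∈ Icc (-N) N, f i := by
    symm
    apply sum_subset
    · intro i hi; rw [mem_Icc] at hi ⊢; omega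
    · intro i hi hi'; rw [mem_Icc] at hi hi'
      rw [show i = -N - 1 by omega]; exact h0
  rw [e1, ← e2, e3]

/-- discrete Green formula mod 2 in the half-plane `ℤ × ℕ`: `u` lives on the vertices, `g` on the
faces, `(i,j)` being the face with lower left corner `(i,j)` -/
theorem green_mod2 (N M : ℤ) (hN : 0 ≤ N) (hM : 0 ≤ M) (u g : ℤ → ℤ → ZMod 2)
    (g1 : ∀ i j, i < -N → g i j = 0) (g2 : ∀ i j, N ≤ i → g i j = 0)
    (g3 : ∀ i j, M ≤ j → g i j = 0) :
    ∑ j ∈ Icc 1 M, ∑ i ∈ Icc (-N) N, (u i j + u (i + 1) j) * (g i (j - 1) + g i j) +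
      ∑ j ∈ Icc 0 M, ∑ i ∈ Icc (-N) N, (u i j + u i (j + 1)) * (g (i - 1) j + g i j) =
      ∑ i ∈ Icc (-N) N, u i 0 * (g (i - 1) 0 + g i 0) := by
  have hA : ∑ j ∈ Icc 1 M, ∑ i ∈ Icc (-N) N, (u i j + u (i + 1) j) * (g i (j - 1) + g i j) =
      ∑ j ∈ Icc 1 M, ∑ i ∈ Icc (-N) N, u i j * (g i (j - 1) + g i j + (g (i - 1) (j - 1) +
        g (i - 1) j)) := by
    apply sum_congr rfl
    intro j _
    have := shift_sum N (fun i => u (i + 1) j * (g i (j - 1) + g i j))
      (by rw [g1 _ _ (by omega), g1 _ _ (by omega)]; ring)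
      (by rw [g2 _ _ le_rfl, g2 _ _ le_rfl]; ring) hN
    simp only [sub_add_cancel] at this
    rw [sum_congr rfl (fun i _ => add_mul (u i j) (u (i + 1) j) (g i (j - 1) + g i j)),
      sum_add_distrib, ← this, ← sum_add_distrib]
    apply sum_congr rfl
    intro i _
    ring
  have hB1 : ∑ j ∈ Icc 0 M, ∑ i ∈ Icc (-N) N, u i (j + 1) * (g (i - 1) j + g i j) =
      ∑ j ∈ Icc 1 M, ∑ i ∈ Icc (-N) N, u i j * (g (i - 1) (j - 1) + g i (j - 1)) := by
    have e1 : ∑ j ∈ Icc 0 M, ∑ i ∈ Icc (-N) N, u i (j + 1) * (g (i - 1) j + g i j) =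
        ∑ j ∈ Icc 1 (M + 1), ∑ i ∈ Icc (-N) N, u i j * (g (i - 1) (j - 1) + g i (j - 1)) := by
      apply sum_bij (fun j _ => j + 1)
      · intro i hi; rw [mem_Icc] at hi ⊢; omega
      · intro i _ j _ h; omega
      · intro i hi; rw [mem_Icc] at hi
        exact ⟨i - 1, by rw [mem_Icc]; omega, by omega⟩
      · intro j _; rw [add_sub_cancel_right]
    rw [e1]
    symm
    apply sum_subset
    · intro i hi; rw [mem_Icc] at hi ⊢; omega
    · intro j hj hj'
      rw [mem_Icc] at hj hj'
      apply sum_eq_zero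
      intro i _
      rw [g3 _ _ (by omega), g3 _ _ (by omega)]
      ring
  have hB2 : ∑ j ∈ Icc 0 M, ∑ i ∈ Icc (-N) N, u i j * (g (i - 1) j + g i j) =
      ∑ i ∈ Icc (-N) N, u i 0 * (g (i - 1) 0 + g i 0) +
      ∑ j ∈ Icc 1 M, ∑ i ∈ Icc (-N) N, u i j * (g (i - 1) j + g i j) := by
    have : Icc (0:ℤ) M = insert 0 (Icc 1 M) := by
      ext j; rw [mem_insert, mem_Icc, mem_Icc]; omega
    rw [this, sum_insert (by rw [mem_Icc]; omega)]
  have hB : ∑ j ∈ Icc 0 M, ∑ i ∈ Icc (-N) N, (u i j + u i (j + 1)) * (g (i - 1) j + g i j) =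
      ∑ i ∈ Icc (-N) N, u i 0 * (g (i - 1) 0 + g i 0) +
      ∑ j ∈ Icc 1 M, ∑ i ∈ Icc (-N) N, u i j * (g i (j - 1) + g i j + (g (i - 1) (j - 1) +
        g (i - 1) j)) := by
    have e1 : ∑ j ∈ Icc 0 M, ∑ i ∈ Icc (-N) N, (u i j + u i (j + 1)) * (g (i - 1) j + g i j) =
        ∑ j ∈ Icc 0 M, ∑ i ∈ Icc (-N) N, u i j * (g (i - 1) j + g i j) +
        ∑ j ∈ Icc 0 M, ∑ i ∈ Icc (-N) N, u i (j + 1) * (g (i - 1) j + g i j) := by
      rw [← sum_add_distrib]
      apply sum_congr rfl
      intro j _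
      rw [← sum_add_distrib]
      apply sum_congr rfl
      intro i _
      ring
    rw [e1, hB1, hB2, add_assoc, ← sum_add_distrib]
    congr 1
    apply sum_congr rfl
    intro j _
    rw [← sum_add_distrib]
    apply sum_congr rfl
    intro i _
    ring
  rw [hA, hB, add_left_comm, CharTwo.add_self_eq_zero, add_zero]

/-! ### the blocking lemma -/

lemma cross_cases {f g : ℤ × ℤ} (h : lattice.Adj f g) :
    (f.2 = g.2 ∧ (g.1 = f.1 + 1 ∨ f.1 = g.1 + 1) ∧
      crossEdge f g = s((max f.1 g.1, f.2), (max f.1 g.1, f.2 + 1))) ∨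
    (f.1 = g.1 ∧ (g.2 = f.2 + 1 ∨ f.2 = g.2 + 1) ∧
      crossEdge f g = s((f.1, max f.2 g.2), (f.1 + 1, max f.2 g.2))) := by
  unfold crossEdge
  rcases h with ⟨h1, h2⟩ | ⟨h1, h2⟩
  · right
    rcases (abs_eq (by norm_num)).1 h2 with h3 | h3
    · refine ⟨h1, by omega, ?_⟩
      rw [if_neg (by omega)]
    · refine ⟨h1, by omega, ?_⟩
      rw [if_neg (by omega)]
  · left
    rcases (abs_eq (by norm_num)).1 h2 with h3 | h3
    · refine ⟨h1, by omega, ?_⟩
      rw [if_pos h1]
    · refine ⟨h1, by omega, ?_⟩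
      rw [if_pos h1]

lemma walk_bound {u v : ℤ × ℤ} (p : lattice.Walk u v) : ∃ L : ℤ, ∀ w ∈ p.support,
    -L < w.1 ∧ w.1 < L ∧ w.2 < L := by
  induction p with
  | nil =>
    rename_i u
    refine ⟨|u.1| + |u.2| + 1, fun w hw => ?_⟩
    rw [Walk.support_nil, List.mem_singleton] at hw
    subst hw
    have := abs_nonneg w.1
    have := abs_nonneg w.2
    have := neg_abs_le w.1
    have := le_abs_self w.1
    have := le_abs_self w.2
    omega
  | @cons a b c h p ih =>
    obtain ⟨L, hL⟩ := ih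
    refine ⟨max L (|a.1| + |a.2| + 1), fun w hw => ?_⟩
    rw [Walk.support_cons, List.mem_cons] at hw
    rcases hw with rfl | hw
    · have := abs_nonneg w.1
      have := abs_nonneg w.2
      have := neg_abs_le w.1
      have := le_abs_self w.1
      have := le_abs_self w.2
      omega
    · have := hL w hw
      omega

lemma exists_hline (x x' y : ℤ) (h : x ≤ x') : ∃ p : lattice.Walk (x, y) (x', y),
    ∀ w ∈ p.support, w.2 = y ∧ x ≤ w.1 ∧ w.1 ≤ x' := by
  obtain ⟨p, hp⟩ := hline x y (x' - x).toNat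
  have e : x + ((x' - x).toNat : ℤ) = x' := by omega
  refine ⟨p.copy rfl (by rw [e]), fun w hw => ?_⟩
  rw [Walk.support_copy] at hw
  have := hp w hw
  omega

lemma exists_vline (x y y' : ℤ) (h : y ≤ y') : ∃ p : lattice.Walk (x, y) (x, y'),
    ∀ w ∈ p.support, w.1 = x ∧ y ≤ w.2 ∧ w.2 ≤ y' := by
  obtain ⟨p, hp⟩ := vline x y (y' - y).toNat
  have e : y + ((y' - y).toNat : ℤ) = y' := by omega
  refine ⟨p.copy rfl (by rw [e]), fun w hw => ?_⟩
  rw [Walk.support_copy] at hw
  have := hp w hw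
  omega

/-- **Blocking**: in the half-plane, a walk of faces from `(i₀,0)` to `(i₁,0)` crosses every walk of
vertices from `(a,0)` to `(b,0)`, if `a ≤ i₀ < b ≤ i₁`. -/
theorem block {a b i0 i1 : ℤ} (h1 : a ≤ i0) (h2 : i0 < b) (h3 : b ≤ i1)
    (p : lattice.Walk (a, 0) (b, 0)) (hp : ∀ w ∈ p.support, 0 ≤ w.2)
    (hp0 : s(((i0, 0) : ℤ × ℤ), (i0 + 1, 0)) ∉ p.edges)
    (hp1 : s(((i1, 0) : ℤ × ℤ), (i1 + 1, 0)) ∉ p.edges)
    (q : lattice.Walk (i0, 0) (i1, 0)) (hq : ∀ w ∈ q.support, 0 ≤ w.2) :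
    ∃ d ∈ q.darts, crossEdge d.fst d.snd ∈ p.edges := by
  obtain ⟨L1, hL1⟩ := walk_bound p
  obtain ⟨L2, hL2⟩ := walk_bound q
  obtain ⟨L, hL⟩ : ∃ L, L = max L1 L2 := ⟨_, rfl⟩
  have pa := hL1 _ p.start_mem_support
  have pb := hL1 _ p.end_mem_support
  have qa := hL2 _ q.start_mem_support
  have qb := hL2 _ q.end_mem_support
  simp only at pa pb qa qb
  obtain ⟨P1, hP1⟩ := exists_vline (-L) 0 L (by omega)
  obtain ⟨P2, hP2⟩ := exists_hline (-L) a 0 (by omega)
  obtain ⟨P3, hP3⟩ := exists_vline b (-3) 0 (by omega)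
  obtain ⟨Q1, hQ1⟩ := exists_hline (-L - 1) i0 (-2) (by omega)
  obtain ⟨Q2, hQ2⟩ := exists_vline i0 (-2) 0 (by omega)
  obtain ⟨Q3, hQ3⟩ := exists_vline i1 (-2) 0 (by omega)
  obtain ⟨Q4, hQ4⟩ := exists_hline i1 L (-2) (by omega)
  set P := ((P1.reverse.append P2).append p).append P3.reverse with hP
  set Q := (((Q1.append Q2).append q).append Q3.reverse).append Q4 with hQ
  have memP : ∀ w ∈ P.support, w ∈ P1.support ∨ w ∈ P2.support ∨ w ∈ p.support ∨
      w ∈ P3.support := by
    intro w hw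
    rw [hP] at hw
    simp only [Walk.mem_support_append_iff, Walk.support_reverse, List.mem_reverse] at hw
    tauto
  have memQ : ∀ w ∈ Q.support, w ∈ Q1.support ∨ w ∈ Q2.support ∨ w ∈ q.support ∨
      w ∈ Q3.support ∨ w ∈ Q4.support := by
    intro w hw
    rw [hQ] at hw
    simp only [Walk.mem_support_append_iff, Walk.support_reverse, List.mem_reverse] at hw
    tauto
  have key := crossing_faces P Q
    (fun w hw => by
      rcases memQ w hw with h | h | h | h | h
      · have := hQ1 w h; simp only; omega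
      · have := hQ2 w h; simp only; omega
      · have := hL2 w h; have := hq w h; simp only; omega
      · have := hQ3 w h; simp only; omega
      · have := hQ4 w h; simp only; omega)
    (fun w hw => by
      rcases memP w hw with h | h | h | h
      · have := hP1 w h; simp only; omega
      · have := hP2 w h; simp only; omega
      · have := hL1 w h; simp only; omega
      · have := hP3 w h; simp only; omega)
    (fun w hw => by
      rcases memP w hw with h | h | h | h
      · have := hP1 w h; simp only; omega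
      · have := hP2 w h; simp only; omega
      · have := hL1 w h; simp only; omega
      · have := hP3 w h; simp only; omega)
  obtain ⟨d, hd, hdP⟩ := key
  -- the two endpoints of the crossed edge
  have hcr := cross_cases d.adj
  have hends : ∀ {x y : ℤ × ℤ} (W : lattice.Walk x y) {α β : ℤ × ℤ}, s(α, β) ∈ W.edges →
      α ∈ W.support ∧ β ∈ W.support := fun W _ _ h =>
    ⟨W.fst_mem_support_of_mem_edges h, W.snd_mem_support_of_mem_edges h⟩
  have hdmem : ∀ {x y : ℤ × ℤ} (W : lattice.Walk x y), d ∈ W.darts →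
      d.fst ∈ W.support ∧ d.snd ∈ W.support := fun W h =>
    ⟨W.dart_fst_mem_support_of_mem_darts h, W.dart_snd_mem_support_of_mem_darts h⟩
  have hdQ : d ∈ Q1.darts ∨ d ∈ Q2.darts ∨ d ∈ q.darts ∨ d ∈ Q3.reverse.darts ∨ d ∈ Q4.darts := by
    rw [hQ] at hd
    simp only [Walk.darts_append, List.mem_append] at hd
    tauto
  have heP : crossEdge d.fst d.snd ∈ P1.reverse.edges ∨ crossEdge d.fst d.snd ∈ P2.edges ∨
      crossEdge d.fst d.snd ∈ p.edges ∨ crossEdge d.fst d.snd ∈ P3.reverse.edges := by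
    rw [hP] at hdP
    simp only [Walk.edges_append, List.mem_append] at hdP
    tauto
  have s1 : ∀ {α β : ℤ × ℤ}, s(α, β) ∈ P1.reverse.edges → α.1 = -L ∧ β.1 = -L ∧
      0 ≤ α.2 ∧ 0 ≤ β.2 := by
    intro α β h
    have := hends _ h
    rw [Walk.support_reverse, List.mem_reverse, List.mem_reverse] at this
    have h1 := hP1 _ this.1
    have h2 := hP1 _ this.2
    omega
  have s2 : ∀ {α β : ℤ × ℤ}, s(α, β) ∈ P2.edges → α.2 = 0 ∧ β.2 = 0 ∧ α.1 ≤ a ∧ β.1 ≤ a := by
    intro α β h
    have := hends _ h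
    have h1 := hP2 _ this.1
    have h2 := hP2 _ this.2
    omega
  have s3 : ∀ {α β : ℤ × ℤ}, s(α, β) ∈ P3.reverse.edges → α.1 = b ∧ β.1 = b ∧
      α.2 ≤ 0 ∧ β.2 ≤ 0 := by
    intro α β h
    have := hends _ h
    rw [Walk.support_reverse, List.mem_reverse, List.mem_reverse] at this
    have h1 := hP3 _ this.1
    have h2 := hP3 _ this.2
    omega
  have s4 : ∀ {α β : ℤ × ℤ}, s(α, β) ∈ p.edges → 0 ≤ α.2 ∧ 0 ≤ β.2 := by
    intro α β h
    have := hends _ h
    exact ⟨hp _ this.1, hp _ this.2⟩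
  have t3 : d ∈ Q3.reverse.darts → d.fst ∈ Q3.support ∧ d.snd ∈ Q3.support := by
    intro h
    have := hdmem _ h
    rwa [Walk.support_reverse, List.mem_reverse, List.mem_reverse] at this
  rcases hdQ with hd | hd | hd | hd | hd
  · -- left horizontal part
    exfalso
    have k := hdmem _ hd
    have k1 := hQ1 _ k.1
    have k2 := hQ1 _ k.2
    rcases hcr with ⟨c1, c2, c3⟩ | ⟨c1, c2, c3⟩
    · rw [c3] at heP
      rcases heP with h | h | h | h
      · have := s1 h; simp only at this; omega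
      · have := s2 h; simp only at this; omega
      · have := s4 h; simp only at this; omega
      · have := s3 h; simp only at this; omega
    · omega
  · -- left vertical part
    exfalso
    have k := hdmem _ hd
    have k1 := hQ2 _ k.1
    have k2 := hQ2 _ k.2
    rcases hcr with ⟨c1, c2, c3⟩ | ⟨c1, c2, c3⟩
    · omega
    · rw [c3] at heP
      rcases heP with h | h | h | h
      · have := s1 h; simp only at this; omega
      · have := s2 h; simp only at this; omega
      · have h0 := s4 h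
        simp only at h0
        apply hp0
        have e1 : max d.fst.2 d.snd.2 = 0 := by omega
        rw [e1, k1.1] at h
        exact h
      · have := s3 h; simp only at this; omega
  · -- the walk itself
    refine ⟨d, hd, ?_⟩
    have k := hdmem _ hd
    have k1 := hq _ k.1
    have k2 := hq _ k.2
    have k3 := hL2 _ k.1
    have k4 := hL2 _ k.2
    rcases heP with h | h | h | h
    · exfalso
      rcases hcr with ⟨c1, c2, c3⟩ | ⟨c1, c2, c3⟩
      · rw [c3] at h; have := s1 h; simp only at this; omega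
      · rw [c3] at h; have := s1 h; simp only at this; omega
    · exfalso
      rcases hcr with ⟨c1, c2, c3⟩ | ⟨c1, c2, c3⟩
      · rw [c3] at h; have := s2 h; simp only at this; omega
      · rw [c3] at h; have := s2 h; simp only at this; omega
    · exact h
    · exfalso
      rcases hcr with ⟨c1, c2, c3⟩ | ⟨c1, c2, c3⟩
      · rw [c3] at h; have := s3 h; simp only at this; omega
      · rw [c3] at h; have := s3 h; simp only at this; omega
  · -- right vertical part
    exfalso
    have k := t3 hd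
    have k1 := hQ3 _ k.1
    have k2 := hQ3 _ k.2
    rcases hcr with ⟨c1, c2, c3⟩ | ⟨c1, c2, c3⟩
    · omega
    · rw [c3] at heP
      rcases heP with h | h | h | h
      · have := s1 h; simp only at this; omega
      · have := s2 h; simp only at this; omega
      · have h0 := s4 h
        simp only at h0
        apply hp1
        have e1 : max d.fst.2 d.snd.2 = 0 := by omega
        rw [e1, k1.1] at h
        exact h
      · have := s3 h; simp only at this; omega
  · -- right horizontal part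
    exfalso
    have k := hdmem _ hd
    have k1 := hQ4 _ k.1
    have k2 := hQ4 _ k.2
    rcases hcr with ⟨c1, c2, c3⟩ | ⟨c1, c2, c3⟩
    · rw [c3] at heP
      rcases heP with h | h | h | h
      · have := s1 h; simp only at this; omega
      · have := s2 h; simp only at this; omega
      · have := s4 h; simp only at this; omega
      · have := s3 h; simp only at this; omega
    · omega

end H47Perc
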