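import Pool.Agent.Helper47.Expl.DualFin

/-!
The probability that the exploration path does not touch an interval.
-/

set_option autoImplicit false

namespace H47Perc.Expl
open Finset MeasureTheory
open Pool.Agent.Helper69.RSW (Up Dep P)

lemma tel_sum (g : ℤ → ZMod 2) (K : ℕ) :
    ∑ i ∈ Icc (-(K:ℤ)) 0, (g (i - 1) + g i) = g (-K - 1) + g 0 := by
  induction K with
  | zero => simp
  | succ K ih =>
    have : Icc (-((K + 1 : ℕ):ℤ)) 0 = insert (-((K + 1 : ℕ):ℤ)) (Icc (-(K:ℤ)) 0) := by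
      ext j; rw [mem_insert, mem_Icc, mem_Icc]; push_cast; omega
    rw [this, sum_insert (by rw [mem_Icc]; push_cast; omega), ih]
    have e : (-((K + 1 : ℕ):ℤ)) = -(K:ℤ) - 1 := by push_cast; ring
    rw [e]
    have h := CharTwo.add_self_eq_zero (g (-(K:ℤ) - 1))
    calc g (-(K:ℤ) - 1 - 1) + g (-(K:ℤ) - 1) + (g (-(K:ℤ) - 1) + g 0)
        = g (-(K:ℤ) - 1 - 1) + g 0 + (g (-(K:ℤ) - 1) + g (-(K:ℤ) - 1)) := by ring
      _ = g (-(K:ℤ) - 1 - 1) + g 0 := by rw [h, add_zero]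

lemma mem_halfAnn_down {m n : ℤ} {z : ℤ × ℤ} :
    z ∈ halfAnn 0 (-1) m n ↔ m ≤ nrm z ∧ nrm z ≤ n ∧ 0 ≤ z.2 := by
  rw [mem_halfAnn]
  have : (0 * (z.1:ℝ) + -1 * (z.2:ℝ) ≤ 0) ↔ 0 ≤ z.2 := by
    constructor
    · intro h
      have : ((0:ℤ):ℝ) ≤ z.2 := by push_cast; linarith
      exact_mod_cast this
    · intro h
      have : ((0:ℤ):ℝ) ≤ z.2 := by exact_mod_cast h
      push_cast at this
      linarith
  rw [this]
  tauto

/-- **Duality**: if no point of `[x,y]` is joined to the negative half-axis, then there is a dual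
crossing of the half annulus. -/
theorem dual_crossing {ω : Sym2 (ℤ × ℤ) → Bool} {x y m n : ℤ} (hm : 1 ≤ m) (hmn : m ≤ n)
    (hxm : x ≤ m + 1) (hny : n ≤ y) (h : ∀ k : ℤ, x ≤ k → k ≤ y → (k, 0) ∉ Cminus ω) :
    Cross m n (dopn (edgesIn (halfAnn 0 (-1) m n)) ω) := by
  classical
  by_contra hcon
  obtain ⟨H, hH⟩ : ∃ H, H = halfAnn 0 (-1) m n := ⟨_, rfl⟩
  rw [← hH] at hcon
  obtain ⟨G, hG⟩ : ∃ G : ℤ × ℤ → Prop, G = fun f => 0 ≤ f.2 ∧ (nrm f < m ∨
    (nrm f ≤ n ∧ ∃ v, nrm v = m ∧ Joined (dopn (edgesIn H) ω) v f)) := ⟨_, rfl⟩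
  have hmem : ∀ z : ℤ × ℤ, z ∈ H ↔ m ≤ nrm z ∧ nrm z ≤ n ∧ 0 ≤ z.2 := by
    intro z; rw [hH]; exact mem_halfAnn_down
  -- the faces at distance `n` do not satisfy `G`
  have hGn : ∀ f, n ≤ nrm f → ¬ G f := by
    intro f hf hGf
    rw [hG] at hGf
    obtain ⟨h1, h2 | ⟨h2, v, h3, h4⟩⟩ := hGf
    · omega
    · exact hcon ⟨v, f, h3, by omega, h4⟩
  have hGm : ∀ f : ℤ × ℤ, 0 ≤ f.2 → nrm f ≤ m → G f := by
    intro f h1 h2
    rw [hG]
    refine ⟨h1, ?_⟩
    rcases h2.lt_or_eq with h3 | h3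
    · exact Or.inl h3
    · exact Or.inr ⟨by omega, f, h3, joined_refl _ _⟩
  -- `G` is constant along dual open edges
  have key : ∀ f f' : ℤ × ℤ, lattice.Adj f f' → 0 ≤ f.2 → 0 ≤ f'.2 →
      ω (crossEdge f f') = false → G f → G f' := by
    intro f f' hadj hf hf' ho hGf
    have d1 := adj_nrm hadj
    have d2 := adj_nrm hadj.symm
    rw [hG] at hGf
    obtain ⟨_, h2 | ⟨h2, v, h3, h4⟩⟩ := hGf
    · exact hGm f' hf' (by omega)
    · by_cases h5 : nrm f' ≤ m
      · exact hGm f' hf' h5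
      · by_cases h6 : nrm f = n
        · exact absurd ⟨v, f, h3, h6, h4⟩ hcon
        · rw [hG]
          refine ⟨hf', Or.inr ⟨by omega, v, h3, joined_trans h4 (joined_edge ?_)⟩⟩
          rw [mem_dopn, mem_edgesIn, hmem, hmem, dE_cross hadj]
          exact ⟨⟨⟨by omega, by omega, hf⟩, ⟨by omega, by omega, hf'⟩, hadj⟩, ho⟩
  have key' : ∀ f f' : ℤ × ℤ, lattice.Adj f f' → 0 ≤ f.2 → 0 ≤ f'.2 →
      ω (crossEdge f f') = false → (G f ↔ G f') := by
    intro f f' hadj hf hf' ho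
    refine ⟨key f f' hadj hf hf' ho, key f' f hadj.symm hf' hf ?_⟩
    rw [← crossEdge_comm hadj]; exact ho
  -- `C₋` is constant along open edges
  have ckey : ∀ u v : ℤ × ℤ, s(u, v) ∈ openEdges ω → (u ∈ Cminus ω ↔ v ∈ Cminus ω) := by
    intro u v huv
    have hne : u ≠ v := (of_open huv).1.ne
    have hadj : (SimpleGraph.fromEdgeSet (openEdges ω)).Adj u v := by
      rw [SimpleGraph.fromEdgeSet_adj]; exact ⟨huv, hne⟩
    constructor
    · rintro ⟨ξ, h1, h2⟩
      exact ⟨ξ, h1, h2.trans hadj.reachable⟩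
    · rintro ⟨ξ, h1, h2⟩
      exact ⟨ξ, h1, h2.trans hadj.symm.reachable⟩
  obtain ⟨u, hu⟩ : ∃ u : ℤ → ℤ → ZMod 2, u = fun i j => par ((i, j) ∈ Cminus ω) := ⟨_, rfl⟩
  obtain ⟨g, hg⟩ : ∃ g : ℤ → ℤ → ZMod 2, g = fun i j => par (G (i, j)) := ⟨_, rfl⟩
  have nrm_ge1 : ∀ i j : ℤ, |i| ≤ nrm (i, j) := fun i j => le_max_left _ _
  have nrm_ge2 : ∀ i j : ℤ, |j| ≤ nrm (i, j) := fun i j => le_max_right _ _
  have gz : ∀ i j, n ≤ nrm (i, j) → g i j = 0 := by
    intro i j h1; rw [hg]; exact par_false (hGn _ h1)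
  have green := green_mod2 (n + 1) (n + 1) (by omega) (by omega) u g
    (fun i j h1 => gz i j (by have := nrm_ge1 i j; have := neg_le_abs i; omega))
    (fun i j h1 => gz i j (by have := nrm_ge1 i j; have := le_abs_self i; omega))
    (fun i j h1 => gz i j (by have := nrm_ge2 i j; have := le_abs_self j; omega))
  -- all the products vanish
  have hz2 : ∀ a : ZMod 2, a + a = 0 := CharTwo.add_self_eq_zero
  have edge : ∀ (a b f f' : ℤ × ℤ), lattice.Adj a b → lattice.Adj f f' → crossEdge f f' = s(a, b) →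
      0 ≤ a.2 → 0 ≤ b.2 → (0 < a.2 ∨ 0 < b.2) → 0 ≤ f.2 → 0 ≤ f'.2 →
      (par (a ∈ Cminus ω) + par (b ∈ Cminus ω)) * (par (G f) + par (G f')) = 0 := by
    intro a b f f' h1 h2 h3 h4 h5 h6 h7 h8
    cases ho : ω s(a, b)
    · have := key' f f' h2 h7 h8 (by rw [h3]; exact ho)
      rw [show par (G f) = par (G f') by rw [propext this], hz2, mul_zero]
    · have := ckey a b (open_of h1 h4 h5 h6 ho)
      rw [show par (a ∈ Cminus ω) = par (b ∈ Cminus ω) by rw [propext this], hz2, zero_mul]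
  have hA : ∑ j ∈ Icc 1 (n + 1), ∑ i ∈ Icc (-(n + 1)) (n + 1),
      (u i j + u (i + 1) j) * (g i (j - 1) + g i j) = 0 := by
    apply sum_eq_zero
    intro j hj
    apply sum_eq_zero
    intro i _
    rw [mem_Icc] at hj
    rw [hu, hg]
    apply edge (i, j) (i + 1, j) (i, j - 1) (i, j)
    · right; simp
    · left; simp
    · unfold crossEdge
      rw [if_neg (by simp only; omega)]
      simp only
      rw [max_eq_right (by omega)]
    · simp only; omega
    · simp only; omega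
    · left; simp only; omega
    · simp only; omega
    · simp only; omega
  have hB : ∑ j ∈ Icc 0 (n + 1), ∑ i ∈ Icc (-(n + 1)) (n + 1),
      (u i j + u i (j + 1)) * (g (i - 1) j + g i j) = 0 := by
    apply sum_eq_zero
    intro j hj
    apply sum_eq_zero
    intro i _
    rw [mem_Icc] at hj
    rw [hu, hg]
    apply edge (i, j) (i, j + 1) (i - 1, j) (i, j)
    · left; simp
    · right; simp
    · unfold crossEdge
      rw [if_pos rfl]
      simp only
      rw [max_eq_right (by omega)]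
    · simp only; omega
    · simp only; omega
    · right; simp only; omega
    · simp only; omega
    · simp only; omega
  -- the boundary sum
  have hu0 : ∀ i : ℤ, i ≤ 0 → u i 0 = 1 := by
    intro i hi
    rw [hu]
    exact par_true ⟨i, hi, SimpleGraph.Reachable.refl _⟩
  have nrm0 : ∀ i : ℤ, nrm (i, 0) = |i| := by
    intro i
    unfold nrm
    simp
  have hC : ∑ i ∈ Icc (-(n + 1)) (n + 1), u i 0 * (g (i - 1) 0 + g i 0) = 1 := by
    have e1 : ∑ i ∈ Icc (-(n + 1)) 0, u i 0 * (g (i - 1) 0 + g i 0) =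
        ∑ i ∈ Icc (-(n + 1)) (n + 1), u i 0 * (g (i - 1) 0 + g i 0) := by
      apply sum_subset
      · intro i hi; rw [mem_Icc] at hi ⊢; omega
      · intro i hi hi'
        rw [mem_Icc] at hi hi'
        by_cases h1 : i ≤ m
        · have e1 : g (i - 1) 0 = 1 := by
            rw [hg]; apply par_true; apply hGm _ le_rfl; rw [nrm0, abs_le]; omega
          have e2 : g i 0 = 1 := by
            rw [hg]; apply par_true; apply hGm _ le_rfl; rw [nrm0, abs_le]; omega
          rw [e1, e2, hz2, mul_zero]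
        · by_cases h2 : i ≤ n
          · have e1 : u i 0 = 0 := by
              rw [hu]; exact par_false (h i (by omega) (by omega))
            rw [e1, zero_mul]
          · rw [gz i 0 (by rw [nrm0, le_abs]; omega), gz (i - 1) 0 (by rw [nrm0, le_abs]; omega),
              hz2, mul_zero]
    rw [← e1]
    have e2 : ∑ i ∈ Icc (-(n + 1)) 0, u i 0 * (g (i - 1) 0 + g i 0) =
        ∑ i ∈ Icc (-(n + 1)) 0, (g (i - 1) 0 + g i 0) := by
      apply sum_congr rfl
      intro i hi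
      rw [mem_Icc] at hi
      rw [hu0 i hi.2, one_mul]
    rw [e2]
    obtain ⟨K, hK⟩ : ∃ K : ℕ, (K:ℤ) = n + 1 := ⟨(n + 1).toNat, by omega⟩
    rw [← hK, tel_sum (fun i => g i 0) K]
    rw [gz (-(K:ℤ) - 1) 0 (by rw [nrm0, le_abs]; omega), zero_add, hg]
    apply par_true
    apply hGm _ le_rfl
    rw [nrm0, abs_zero]
    omega
  rw [hA, hB, hC] at green
  exact absurd green (by decide)

/-- upper bound for the probability of a jump over `[x,y]` -/
theorem jump_upper {x y : ℕ} (hx : 1 ≤ x) (hxy : x ≤ y) :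
    bond.real {ω | ∀ k : ℤ, x ≤ k → k ≤ y → (k, 0) ∉ Cminus ω} ≤ crH 0 (-1) x y := by
  calc bond.real {ω | ∀ k : ℤ, x ≤ k → k ≤ y → (k, 0) ∉ Cminus ω}
      ≤ bond.real {ω | Cross x y (dopn (edgesIn (halfAnn 0 (-1) x y)) ω)} :=
        bond_mono (fun ω h => dual_crossing (by omega) (by omega) (by omega) le_rfl h)
    _ = crH 0 (-1) x y := by rw [bond_dual_perc]; rfl

/-- the outer arch -/
lemma arch_dual {c : ℝ} (hc : 0 < c) (hRSW : ∀ n : ℕ, 1 ≤ n → c ≤ pLR (4 * n) n) {r : ℕ}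
    (hr : 1 ≤ r) {S : Finset (ℤ × ℤ)} (hS : box (-2 * (r:ℤ)) (2 * r) 0 (2 * r) ⊆ S) :
    c ^ 3 ≤ perc half S (ArchE 0 r (2 * r) 0 0 0) := by
  apply arch_prob hc hRSW hr
  · omega
  · omega
  · omega
  · omega
  · exact (box_mono (by omega) (by omega) (by omega) (by omega)).trans hS
  · exact (box_mono (by omega) (by omega) (by omega) (by omega)).trans hS
  · exact (box_mono (by omega) (by omega) (by omega) (by omega)).trans hS

/-- lower bound for the probability of a jump over `[x,y]`, small `x` -/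
theorem jump_lower_one {c : ℝ} (hc : 0 < c) (hRSW : ∀ n : ℕ, 1 ≤ n → c ≤ pLR (4 * n) n) {y : ℕ}
    (hy : 1 ≤ y) :
    c ^ 3 * piH 0 (-1) (2 * y) ≤
      bond.real {ω | ∀ k : ℤ, 1 ≤ k → k ≤ y → (k, 0) ∉ Cminus ω} := by
  classical
  obtain ⟨S, hS⟩ : ∃ S, S = box (-2 * (y:ℤ)) (2 * y) 0 (2 * y) := ⟨_, rfl⟩
  have hpos : ∀ w ∈ S, 0 ≤ w.2 := fun w hw => by rw [hS, mem_box] at hw; omega
  have p1 : piH 0 (-1) (2 * y) ≤ perc half S (Arm S (0, 0) (2 * y : ℕ)) := by
    rw [perc_arm _ _ inter_subset_left]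
    apply piH_le_armP
    intro w h1 h2 h3
    have h4 : 0 ≤ w.2 := by
      have h5 : ((0:ℤ):ℝ) ≤ w.2 := by simp only at h3; push_cast at h3 ⊢; linarith
      exact_mod_cast h5
    rw [abs_le] at h1 h2
    rw [hS, mem_box]
    simp only at h1 h2
    push_cast at h1 h2
    omega
  have p2 := arch_dual hc hRSW hy (S := S) (by rw [hS])
  have q1 := perc_harris S (arm_up S (0, 0) (2 * y : ℕ)) (archE_up 0 y (2 * y) 0 0 0)
  calc c ^ 3 * piH 0 (-1) (2 * y) = piH 0 (-1) (2 * y) * c ^ 3 := by ring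
    _ ≤ perc half S (Arm S (0, 0) (2 * y : ℕ)) * perc half S (ArchE 0 y (2 * y) 0 0 0) :=
        mul_le_mul p1 p2 (by positivity) (perc_half_nonneg _ _)
    _ ≤ perc half S (fun ω => Arm S (0, 0) (2 * y : ℕ) ω ∧ ArchE 0 y (2 * y) 0 0 0 ω) := q1
    _ = bond.real {ω | Arm S (0, 0) (2 * y : ℕ) (dopn (edgesIn S) ω) ∧
          ArchE 0 y (2 * y) 0 0 0 (dopn (edgesIn S) ω)} := by
        rw [← bond_dual_perc S (fun ω => Arm S (0, 0) (2 * y : ℕ) ω ∧ ArchE 0 y (2 * y) 0 0 0 ω)]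
    _ ≤ _ := by
        apply bond_mono
        rintro ω ⟨⟨z, hz, hj⟩, hA⟩ k hk1 hk2
        obtain ⟨ξ, η, i1, i2, i3, i4, i5, i6⟩ := arch (by omega) (by omega) (by omega) (by omega) hA
        have h0 : ((0, 0) : ℤ × ℤ) ∈ S := by rw [hS, mem_box]; simp only; omega
        have hzS := mem_of_joined (S := S) (inter_subset_right.trans
          (edgesIn_mono inter_subset_left)) hj h0
        have hj2 := i6 S (0, 0) z (by simp) (by simp only; omega) hpos h0 (by
            unfold AtDist at hz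
            have := hpos z hzS
            simp only [sub_zero] at hz
            push_cast at hz
            rcases hz with hz | hz
            · left; rw [sub_zero, hz]
            · right
              rw [abs_of_nonneg this] at hz
              omega)
          (joined_mono (inter_subset_inter_left (edgesIn_mono inter_subset_left)) hj)
        have hj3 : Joined (dopn (edgesIn S) ω) (0, 0) (η, 0) :=
          joined_trans (joined_symm hj2) i5
        exact not_cminus hpos le_rfl (by omega) (by omega) hj3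

/-- lower bound for the probability of a jump over `[x,y]` -/
theorem jump_lower {c : ℝ} (hc : 0 < c) (hRSW : ∀ n : ℕ, 1 ≤ n → c ≤ pLR (4 * n) n) {x y m : ℕ}
    (hm : 1 ≤ m) (hmx : 2 * m < x) (hxy : x ≤ y) :
    c ^ 6 * crH 0 (-1) m (2 * y) ≤
      bond.real {ω | ∀ k : ℤ, x ≤ k → k ≤ y → (k, 0) ∉ Cminus ω} := by
  classical
  obtain ⟨S, hS⟩ : ∃ S, S = box (-2 * (y:ℤ)) (2 * y) 0 (2 * y) := ⟨_, rfl⟩
  have hpos : ∀ w ∈ S, 0 ≤ w.2 := fun w hw => by rw [hS, mem_box] at hw; omega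
  obtain ⟨H, hH⟩ : ∃ H, H = halfAnn 0 (-1) (m:ℤ) ((2 * y : ℕ):ℤ) := ⟨_, rfl⟩
  have hHS : H ⊆ S := by
    intro z hz
    rw [hH, mem_halfAnn_down, nrm_le, abs_le, abs_le] at hz
    rw [hS, mem_box]
    push_cast at hz
    omega
  set X : Finset (Sym2 (ℤ × ℤ)) → Prop := fun ω => Cross m (2 * y : ℕ) (ω ∩ edgesIn H) with hX
  have pX : perc half S X = crH 0 (-1) m (2 * y) := by
    rw [hX, perc_restrict hHS, hH]; rfl
  have uX : Up X := up_inter (cross_up _ _) _
  have p1 := arch_dual hc hRSW hm (S := S) (by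
    rw [hS]; exact box_mono (by omega) (by omega) (by omega) (by omega))
  have p2 := arch_dual hc hRSW (show 1 ≤ y by omega) (S := S) (by rw [hS])
  have q0 := perc_harris S (archE_up 0 m (2 * m) 0 0 0) (archE_up 0 y (2 * y) 0 0 0)
  have q1 := perc_harris S uX ((archE_up 0 m (2 * m) 0 0 0).and (archE_up 0 y (2 * y) 0 0 0))
  have q2 := (mul_le_mul p1 p2 (by positivity) ((by positivity : (0:ℝ) ≤ c ^ 3).trans p1)).trans q0
  calc c ^ 6 * crH 0 (-1) m (2 * y) = crH 0 (-1) m (2 * y) * (c ^ 3 * c ^ 3) := by ring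
    _ ≤ perc half S X * perc half S (fun ω => ArchE 0 m (2 * m) 0 0 0 ω ∧
          ArchE 0 y (2 * y) 0 0 0 ω) := by
        rw [pX]; exact mul_le_mul_of_nonneg_left q2 (crH_nonneg _ _ _ _)
    _ ≤ perc half S (fun ω => X ω ∧ (ArchE 0 m (2 * m) 0 0 0 ω ∧ ArchE 0 y (2 * y) 0 0 0 ω)) := q1
    _ = bond.real {ω | X (dopn (edgesIn S) ω) ∧ (ArchE 0 m (2 * m) 0 0 0 (dopn (edgesIn S) ω) ∧
          ArchE 0 y (2 * y) 0 0 0 (dopn (edgesIn S) ω))} := by
        rw [← bond_dual_perc S (fun ω => X ω ∧ (ArchE 0 m (2 * m) 0 0 0 ω ∧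
          ArchE 0 y (2 * y) 0 0 0 ω))]
    _ ≤ _ := by
        apply bond_mono
        rintro ω ⟨⟨u, z, hu, hz, hj⟩, hA, hA'⟩ k hk1 hk2
        obtain ⟨ξ, η, i1, i2, i3, i4, i5, i6⟩ := arch (by omega) (by omega) (by omega) (by omega) hA
        obtain ⟨ξ', η', i1', i2', i3', i4', i5', i6'⟩ :=
          arch (by omega) (by omega) (by omega) (by omega) hA'
        have hne : u ≠ z := by
          rintro rfl
          rw [hu] at hz
          push_cast at hz
          omega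
        have huH := mem_of_joined_ne inter_subset_right hj hne
        have hzH := mem_of_joined inter_subset_right hj huH
        rw [hH, mem_halfAnn_down] at huH hzH
        have hu' : |u.1| ≤ m ∧ |u.2| ≤ m := nrm_le.1 hu.le
        have hz' : ((2 * y : ℕ):ℤ) ≤ |z.1| ∨ ((2 * y : ℕ):ℤ) ≤ |z.2| := le_nrm.1 hz.ge
        push_cast at hz'
        have hz2 : ∀ R : ℤ, R ≤ 2 * y → (R ≤ |z.1 - 0| ∨ 0 + R ≤ z.2) := by
          intro R hR
          rcases hz' with h | h
          · left; rw [sub_zero]; omega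
          · right; rw [abs_of_nonneg hzH.2.2] at h; omega
        have hjH : Joined (dopn (edgesIn S) ω ∩ edgesIn H) u z := hj
        have hHpos : ∀ w ∈ H, 0 ≤ w.2 := fun w hw => hpos w (hHS hw)
        have huH' : u ∈ H := by rw [hH, mem_halfAnn_down]; exact huH
        rw [abs_le, abs_le] at hu'
        have k1 := i6 H u z (by rw [sub_zero, abs_le]; exact hu'.1) (by omega) hHpos huH'
          (hz2 _ (by omega)) hjH
        have k2 := i6' H u z (by rw [sub_zero, abs_le]; omega) (by omega) hHpos huH'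
          (hz2 _ (by omega)) hjH
        have hj3 : Joined (dopn (edgesIn S) ω) (η, 0) (η', 0) :=
          joined_trans (joined_symm i5) (joined_trans k1 (joined_trans (joined_symm k2) i5'))
        exact not_cminus hpos (by omega) (by omega) (by omega) hj3

end H47Perc.Expl
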